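import Pool.Agent.helper39.GJ.SpecS

/-! L14 from S4 (`k1 = 5`). -/

namespace Pool.Agent.GJ

theorem L14 (h : S4_stmt) : L14_stmt := by
  intro l _ r V D _ _ _ _ P E B hl hP hE hB hC M hM hk A hA
  exact h l r V D P E B hl hP hE hB hC M hM 5 hk A hA

end Pool.Agent.GJ
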